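import Mathlib
import Pool.Agent.K3h76.SB.StmA

/-!
# Behaviour of `Ph` at infinity (brick EXP of K3h76/SB)
-/

set_option autoImplicit false

namespace Pool.Agent.K3h72.SB.Exp

open Pool.Agent.K3h76.SB

/-- `exp (i π z k)` for `z = ρ + i σ` -/
noncomputable def E (ρ σ k : ℝ) : ℂ :=
  Complex.exp (((-(Real.pi * σ * k) : ℝ) : ℂ) + ((Real.pi * ρ * k : ℝ) : ℂ) * Complex.I)

theorem E_add (ρ σ k l : ℝ) : E ρ σ (k + l) = E ρ σ k * E ρ σ l := by
  unfold E
  rw [← Complex.exp_add]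
  congr 1
  push_cast
  ring

theorem E_ne (ρ σ k : ℝ) : E ρ σ k ≠ 0 := Complex.exp_ne_zero _

theorem norm_E (ρ σ k : ℝ) : ‖E ρ σ k‖ = Real.exp (-(Real.pi * σ * k)) := by
  unfold E
  rw [Complex.norm_exp]
  simp

theorem im_E (ρ σ k : ℝ) :
    (E ρ σ k).im = Real.exp (-(Real.pi * σ * k)) * Real.sin (Real.pi * ρ * k) := by
  unfold E
  rw [Complex.exp_im]
  simp

theorem re_E (ρ σ k : ℝ) :
    (E ρ σ k).re = Real.exp (-(Real.pi * σ * k)) * Real.cos (Real.pi * ρ * k) := by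
  unfold E
  rw [Complex.exp_re]
  simp

theorem sin_eq (ρ σ c : ℝ) : Complex.sin (Real.pi * ((ρ : ℂ) + (σ : ℂ) * Complex.I) * c) =
    (E ρ σ (-c) - E ρ σ c) * Complex.I / 2 := by
  have h1 : Complex.exp (-(Real.pi * ((ρ : ℂ) + (σ : ℂ) * Complex.I) * c) * Complex.I) =
      E ρ σ (-c) := by
    unfold E
    congr 1
    push_cast
    linear_combination (-(Real.pi : ℂ) * σ * c) * Complex.I_sq
  have h2 : Complex.exp ((Real.pi * ((ρ : ℂ) + (σ : ℂ) * Complex.I) * c) * Complex.I) =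
      E ρ σ c := by
    unfold E
    congr 1
    push_cast
    linear_combination ((Real.pi : ℂ) * σ * c) * Complex.I_sq
  rw [← h1, ← h2]
  rfl

theorem den_bound {ρ σ : ℝ} (h0 : 0 < ρ) (h1 : ρ < 1) :
    Real.sin (Real.pi * ρ) ≤ ‖1 - E ρ σ 2‖ := by
  have hm : 0 < Real.sin (Real.pi * ρ) :=
    Real.sin_pos_of_pos_of_lt_pi (mul_pos Real.pi_pos h0) (by nlinarith [Real.pi_pos])
  refine le_of_sq_le_sq ?_ (norm_nonneg _)
  rw [Complex.sq_norm, Complex.normSq_apply]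
  have e1 : (1 - E ρ σ 2).re = 1 - Real.exp (-(Real.pi * σ * 2)) * Real.cos (2 * (Real.pi * ρ)) := by
    rw [Complex.sub_re, re_E, Complex.one_re, mul_comm (Real.pi * ρ) 2]
  have e2 : (1 - E ρ σ 2).im = -(Real.exp (-(Real.pi * σ * 2)) * Real.sin (2 * (Real.pi * ρ))) := by
    rw [Complex.sub_im, im_E, Complex.one_im, mul_comm (Real.pi * ρ) 2, zero_sub]
  rw [e1, e2]
  set u := Real.exp (-(Real.pi * σ * 2)) with hu
  have hu0 : 0 < u := Real.exp_pos _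
  have h3 := Real.cos_sq_add_sin_sq (2 * (Real.pi * ρ))
  have h4 : Real.cos (2 * (Real.pi * ρ)) = 1 - 2 * Real.sin (Real.pi * ρ) ^ 2 := by
    rw [Real.cos_two_mul]
    have := Real.cos_sq_add_sin_sq (Real.pi * ρ)
    linarith
  have h5 : Real.sin (Real.pi * ρ) ^ 2 ≤ 1 := Real.sin_sq_le_one _
  have h6 : (1 - u * Real.cos (2 * (Real.pi * ρ))) * (1 - u * Real.cos (2 * (Real.pi * ρ))) +
      -(u * Real.sin (2 * (Real.pi * ρ))) * -(u * Real.sin (2 * (Real.pi * ρ))) =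
      (1 - u) ^ 2 + 4 * u * Real.sin (Real.pi * ρ) ^ 2 := by
    have : (1 - u * Real.cos (2 * (Real.pi * ρ))) * (1 - u * Real.cos (2 * (Real.pi * ρ))) +
      -(u * Real.sin (2 * (Real.pi * ρ))) * -(u * Real.sin (2 * (Real.pi * ρ))) =
      1 - 2 * u * Real.cos (2 * (Real.pi * ρ)) + u ^ 2 * (Real.cos (2 * (Real.pi * ρ)) ^ 2 +
        Real.sin (2 * (Real.pi * ρ)) ^ 2) := by ring
    rw [this, h3, h4]
    ring
  rw [h6]
  set m := Real.sin (Real.pi * ρ) ^ 2 with hmm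
  have hm0 : 0 < m := by positivity
  nlinarith [mul_nonneg (sub_nonneg.2 h5) (sq_nonneg (1 - u)), mul_pos hm0 hu0,
    mul_pos hm0 (mul_pos hu0 hu0)]

theorem eta_eq (a b : ℕ) {ρ σ : ℝ} (hd : 1 - E ρ σ 2 ≠ 0) :
    eta a b ((ρ : ℂ) + (σ : ℂ) * Complex.I) =
      Complex.I / 2 * (E ρ σ (1 - 1 / a - 1 / b) - E ρ σ (1 - (1 / a - 1 / b))) +
      Complex.I / 2 * ((-E ρ σ (1 + (1 / a - 1 / b)) + E ρ σ (1 + 1 / a + 1 / b) +
        E ρ σ (1 - 1 / a - 1 / b + 2) - E ρ σ (1 - (1 / a - 1 / b) + 2)) / (1 - E ρ σ 2)) := by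
  unfold eta
  have s1 : Complex.sin (Real.pi * ((ρ : ℂ) + (σ : ℂ) * Complex.I) / a) =
      (E ρ σ (-(1 / a)) - E ρ σ (1 / a)) * Complex.I / 2 := by
    rw [← sin_eq]
    congr 1
    push_cast
    ring
  have s2 : Complex.sin (Real.pi * ((ρ : ℂ) + (σ : ℂ) * Complex.I) / b) =
      (E ρ σ (-(1 / b)) - E ρ σ (1 / b)) * Complex.I / 2 := by
    rw [← sin_eq]
    congr 1
    push_cast
    ring
  have s3 : Complex.sin (Real.pi * ((ρ : ℂ) + (σ : ℂ) * Complex.I)) =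
      (E ρ σ (-1) - E ρ σ 1) * Complex.I / 2 := by
    rw [← sin_eq]
    congr 1
    push_cast
    ring
  rw [s1, s2, s3]
  -- everything in terms of the values at `1`, `1 / a`, `1 / b`
  have n1 : E ρ σ (-1) * E ρ σ 1 = 1 := by
    rw [← E_add]
    simp [E]
  have na : E ρ σ (-(1 / a)) * E ρ σ (1 / a) = 1 := by
    rw [← E_add, neg_add_cancel]
    simp [E]
  have nb : E ρ σ (-(1 / b)) * E ρ σ (1 / b) = 1 := by
    rw [← E_add, neg_add_cancel]
    simp [E]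
  have t2 : E ρ σ 2 = E ρ σ 1 * E ρ σ 1 := by
    rw [← E_add]
    norm_num
  have k1 : E ρ σ (1 - 1 / a - 1 / b) = E ρ σ 1 * E ρ σ (-(1 / a)) * E ρ σ (-(1 / b)) := by
    rw [← E_add, ← E_add]
    congr 1
  have k2 : E ρ σ (1 - (1 / a - 1 / b)) = E ρ σ 1 * E ρ σ (-(1 / a)) * E ρ σ (1 / b) := by
    rw [← E_add, ← E_add]
    congr 1
    ring
  have k3 : E ρ σ (1 + (1 / a - 1 / b)) = E ρ σ 1 * E ρ σ (1 / a) * E ρ σ (-(1 / b)) := by
    rw [← E_add, ← E_add]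
    congr 1
    ring
  have k4 : E ρ σ (1 + 1 / a + 1 / b) = E ρ σ 1 * E ρ σ (1 / a) * E ρ σ (1 / b) := by
    rw [← E_add, ← E_add]
  rw [E_add ρ σ (1 - 1 / a - 1 / b) 2, E_add ρ σ (1 - (1 / a - 1 / b)) 2, k1, k2, k3, k4, t2]
  rw [t2] at hd
  have x1 := E_ne ρ σ 1
  set x := E ρ σ 1
  set x' := E ρ σ (-1)
  set y := E ρ σ (1 / a)
  set y' := E ρ σ (-(1 / a))
  set w := E ρ σ (1 / b)
  set w' := E ρ σ (-(1 / b))
  have hI : Complex.I ≠ 0 := Complex.I_ne_zero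
  have hx' : x' = 1 / x := by
    rw [eq_div_iff x1]
    exact n1
  have hden : (x' - x) ≠ 0 := by
    rw [hx']
    intro h
    apply hd
    have : 1 / x = x := sub_eq_zero.1 h
    rw [div_eq_iff x1] at this
    rw [← this]
    ring
  have hq : (x' - x) * x = 1 - x * x := by
    rw [hx']
    field_simp
  rw [div_eq_iff (by
    refine div_ne_zero (mul_ne_zero hden hI) two_ne_zero)]
  have hx2 : (x' - x) = (1 - x * x) / x := by
    rw [eq_div_iff x1]
    exact hq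
  rw [hx2]
  have hd2 : 1 - x ^ 2 ≠ 0 := by
    rw [sq]
    exact hd
  field_simp
  ring

theorem t_EXP : S_EXP := by
  intro a b ρ v ha hab h0 h1 hv
  have hm : 0 < Real.sin (Real.pi * ρ) :=
    Real.sin_pos_of_pos_of_lt_pi (mul_pos Real.pi_pos h0) (by nlinarith [Real.pi_pos])
  refine ⟨2 / Real.sin (Real.pi * ρ), fun s hs => ?_⟩
  have hσ0 : 0 ≤ √v * s := by positivity
  have hden := den_bound (σ := √v * s) h0 h1
  have hd : 1 - E ρ (√v * s) 2 ≠ 0 := by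
    intro h
    rw [h, norm_zero] at hden
    linarith
  have ha1 : (0 : ℝ) < 1 / a := by
    have : (0 : ℝ) < a := by exact_mod_cast (by omega : 0 < a)
    positivity
  have hb1 : (0 : ℝ) < 1 / b := by
    have : (0 : ℝ) < b := by exact_mod_cast (by omega : 0 < b)
    positivity
  have ha2 : (1 : ℝ) / a ≤ 1 / 2 := by
    have : (2 : ℝ) ≤ a := by exact_mod_cast ha
    exact one_div_le_one_div_of_le two_pos this
  have hab2 : (1 : ℝ) / b ≤ 1 / a := by
    have h3 : (a : ℝ) ≤ b := by exact_mod_cast hab.le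
    have : (0 : ℝ) < a := by exact_mod_cast (by omega : 0 < a)
    exact one_div_le_one_div_of_le this h3
  have hE : ∀ k : ℝ, 1 ≤ k → ‖E ρ (√v * s) k‖ ≤ Real.exp (-(Real.pi * √v * s)) := by
    intro k hk
    rw [norm_E]
    refine Real.exp_le_exp.2 (neg_le_neg ?_)
    calc Real.pi * √v * s = Real.pi * (√v * s) * 1 := by ring
      _ ≤ Real.pi * (√v * s) * k := mul_le_mul_of_nonneg_left hk (by positivity)
  have hre : ∀ k : ℝ, (Complex.I / 2 * E ρ (√v * s) k).re =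
      -(1 / 2) * (Real.sin (Real.pi * ρ * k) * Real.exp (-(Real.pi * √v * k * s))) := by
    intro k
    rw [show Complex.I / 2 * E ρ (√v * s) k = ((1 / 2 : ℝ) : ℂ) * (Complex.I * E ρ (√v * s) k) by
      push_cast; ring, Complex.re_ofReal_mul, Complex.I_mul_re, im_E,
      show Real.pi * (√v * s) * k = Real.pi * √v * k * s by ring]
    ring
  unfold Ph lead2
  rw [eta_eq a b hd, Complex.add_re, mul_sub, Complex.sub_re, hre, hre]
  rw [show -(1 / 2) * (Real.sin (Real.pi * ρ * (1 - 1 / (a : ℝ) - 1 / b)) *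
        Real.exp (-(Real.pi * √v * (1 - 1 / a - 1 / b) * s))) -
      -(1 / 2) * (Real.sin (Real.pi * ρ * (1 - (1 / a - 1 / b))) *
        Real.exp (-(Real.pi * √v * (1 - (1 / a - 1 / b)) * s))) +
      (Complex.I / 2 * ((-E ρ (√v * s) (1 + (1 / a - 1 / b)) + E ρ (√v * s) (1 + 1 / a + 1 / b) +
        E ρ (√v * s) (1 - 1 / a - 1 / b + 2) - E ρ (√v * s) (1 - (1 / a - 1 / b) + 2)) /
          (1 - E ρ (√v * s) 2))).re -
      -(1 / 2) * (Real.sin (Real.pi * ρ * (1 - 1 / a - 1 / b)) *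
          Real.exp (-(Real.pi * √v * (1 - 1 / a - 1 / b) * s)) -
        Real.sin (Real.pi * ρ * (1 - (1 / a - 1 / b))) *
          Real.exp (-(Real.pi * √v * (1 - (1 / a - 1 / b)) * s))) =
      (Complex.I / 2 * ((-E ρ (√v * s) (1 + (1 / a - 1 / b)) + E ρ (√v * s) (1 + 1 / a + 1 / b) +
        E ρ (√v * s) (1 - 1 / a - 1 / b + 2) - E ρ (√v * s) (1 - (1 / a - 1 / b) + 2)) /
          (1 - E ρ (√v * s) 2))).re by ring]
  refine (Complex.abs_re_le_norm _).trans ?_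
  rw [norm_mul, norm_div, norm_div, Complex.norm_I, Complex.norm_ofNat]
  have hN : ‖-E ρ (√v * s) (1 + (1 / a - 1 / b)) + E ρ (√v * s) (1 + 1 / a + 1 / b) +
        E ρ (√v * s) (1 - 1 / a - 1 / b + 2) - E ρ (√v * s) (1 - (1 / a - 1 / b) + 2)‖ ≤
      4 * Real.exp (-(Real.pi * √v * s)) := by
    have g1 := hE (1 + (1 / a - 1 / b)) (by linarith)
    have g2 := hE (1 + 1 / a + 1 / b) (by linarith)
    have g3 := hE (1 - 1 / a - 1 / b + 2) (by linarith)
    have g4 := hE (1 - (1 / a - 1 / b) + 2) (by linarith)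
    refine (norm_sub_le _ _).trans ?_
    refine (add_le_add (norm_add_le _ _) le_rfl).trans ?_
    refine (add_le_add (add_le_add (norm_add_le _ _) le_rfl) le_rfl).trans ?_
    rw [norm_neg]
    linarith
  calc 1 / 2 * (‖-E ρ (√v * s) (1 + (1 / a - 1 / b)) + E ρ (√v * s) (1 + 1 / a + 1 / b) +
        E ρ (√v * s) (1 - 1 / a - 1 / b + 2) - E ρ (√v * s) (1 - (1 / a - 1 / b) + 2)‖ /
          ‖1 - E ρ (√v * s) 2‖)
      ≤ 1 / 2 * (4 * Real.exp (-(Real.pi * √v * s)) / Real.sin (Real.pi * ρ)) := by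
        refine mul_le_mul_of_nonneg_left ?_ (by norm_num)
        exact div_le_div₀ (by positivity) hN hm hden
    _ = 2 / Real.sin (Real.pi * ρ) * Real.exp (-(Real.pi * √v * s)) := by ring

end Pool.Agent.K3h72.SB.Exp
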