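import Mathlib
import Pool.Agent.K3h76.SB.StmB

/-!
# The second asymptotic expansion (brick SECOND of K3h76/SB)
-/

set_option autoImplicit false

namespace Pool.Agent.K3h72.SB.Second

open Finset PowerSeries Asymptotics Filter Pool.Agent.K3h96.OS Pool.Agent.K3h76.SB

theorem hasSum_choose (t : ℕ) {x : ℝ} (hx : |x| < 1) :
    HasSum (fun j : ℕ => (j.choose t : ℝ) * x ^ (j - t)) (1 / (1 - x) ^ (t + 1)) := by
  have h := hasSum_choose_mul_geometric_of_norm_lt_one t (r := x) (by simpa using hx)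
  have hinj : Function.Injective (fun n : ℕ => n + t) := add_left_injective t
  refine (hinj.hasSum_iff ?_).1 ?_
  · intro j hj
    have : j < t := by
      by_contra hc
      push Not at hc
      exact hj ⟨j - t, by simp only []; omega⟩
    simp only [Nat.choose_eq_zero_of_lt this, Nat.cast_zero, zero_mul]
  · have : ((fun j : ℕ => (j.choose t : ℝ) * x ^ (j - t)) ∘ fun n : ℕ => n + t) =
        fun n : ℕ => ((n + t).choose t : ℝ) * x ^ n := by
      funext n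
      simp only [Function.comp, Nat.add_sub_cancel]
    rw [this]
    exact h

theorem hasSum_odd (t : ℕ) {ρ : ℝ} (h0 : 0 ≤ ρ) (h1 : ρ < 1) :
    HasSum (fun q : ℕ => ((2 * q + 1).choose (2 * t) : ℝ) * ρ ^ (2 * q + 1 - 2 * t))
      ((1 / (1 - ρ) ^ (2 * t + 1) - 1 / (1 + ρ) ^ (2 * t + 1)) / 2) := by
  have ha := hasSum_choose (2 * t) (x := ρ) (by rw [abs_of_nonneg h0]; exact h1)
  have hb := hasSum_choose (2 * t) (x := -ρ) (by rw [abs_neg, abs_of_nonneg h0]; exact h1)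
  have hc := (ha.sub hb).div_const 2
  rw [sub_neg_eq_add] at hc
  have hinj : Function.Injective (fun q : ℕ => 2 * q + 1) := fun a b h => by
    simp only [] at h
    omega
  have hz : ∀ j : ℕ, j ∉ Set.range (fun q : ℕ => 2 * q + 1) →
      (fun j : ℕ => ((j.choose (2 * t) : ℝ) * ρ ^ (j - 2 * t) -
        (j.choose (2 * t) : ℝ) * (-ρ) ^ (j - 2 * t)) / 2) j = 0 := by
    intro j hj
    have he : Even j := by
      by_contra hc
      rw [Nat.not_even_iff_odd] at hc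
      obtain ⟨m, hm⟩ := hc
      exact hj ⟨m, hm.symm⟩
    rcases lt_or_ge j (2 * t) with h | h
    · simp only [Nat.choose_eq_zero_of_lt h, Nat.cast_zero, zero_mul, sub_zero, zero_div]
    · have h2 : Even (j - 2 * t) := by
        obtain ⟨m, hm⟩ := he
        exact ⟨m - t, by omega⟩
      simp only [h2.neg_pow, sub_self, zero_div]
  have h3 := (hinj.hasSum_iff hz).2 hc
  have h4 : ((fun j : ℕ => ((j.choose (2 * t) : ℝ) * ρ ^ (j - 2 * t) -
        (j.choose (2 * t) : ℝ) * (-ρ) ^ (j - 2 * t)) / 2) ∘ fun q : ℕ => 2 * q + 1) =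
      fun q : ℕ => ((2 * q + 1).choose (2 * t) : ℝ) * ρ ^ (2 * q + 1 - 2 * t) := by
    funext q
    simp only [Function.comp]
    rcases lt_or_ge (2 * q + 1) (2 * t) with h | h
    · simp only [Nat.choose_eq_zero_of_lt h, Nat.cast_zero, zero_mul, sub_zero, zero_div]
    · have h2 : Odd (2 * q + 1 - 2 * t) := ⟨q - t, by omega⟩
      rw [h2.neg_pow]
      ring
  rw [h4] at h3
  exact h3

theorem rem_bound (t : ℕ) {ρ s C r : ℝ} {Γ : ℕ → ℝ} (h0 : 0 < ρ) (h1 : ρ < 1) (hs0 : 0 < s)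
    (hs1 : s < 1) (hΓ : ∀ q, |Γ q - r| ≤ C * (s ^ 2) ^ q) :
    Summable (fun q : ℕ => (Γ q - r) * (((2 * q + 1).choose (2 * t) : ℝ) *
      ρ ^ (2 * q + 1 - 2 * t))) ∧
    |∑' q : ℕ, (Γ q - r) * (((2 * q + 1).choose (2 * t) : ℝ) * ρ ^ (2 * q + 1 - 2 * t))| ≤
      C / s * s ^ (2 * t) * (1 / (1 - s * ρ) ^ (2 * t + 1)) := by
  have hC : 0 ≤ C := by
    have := (abs_nonneg _).trans (hΓ 0)
    simpa using this
  have hsρ : s * ρ < 1 := by nlinarith
  have hs := hasSum_odd t (ρ := s * ρ) (by positivity) hsρ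
  have hg := hs.mul_left (C / s * s ^ (2 * t))
  have hb : ∀ q : ℕ, ‖(Γ q - r) * (((2 * q + 1).choose (2 * t) : ℝ) * ρ ^ (2 * q + 1 - 2 * t))‖ ≤
      C / s * s ^ (2 * t) * (((2 * q + 1).choose (2 * t) : ℝ) * (s * ρ) ^ (2 * q + 1 - 2 * t)) := by
    intro q
    rw [norm_mul, Real.norm_eq_abs, Real.norm_of_nonneg (by positivity)]
    rcases lt_or_ge (2 * q + 1) (2 * t) with h | h
    · simp only [Nat.choose_eq_zero_of_lt h, Nat.cast_zero, zero_mul, mul_zero, le_refl]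
    · refine (mul_le_mul_of_nonneg_right (hΓ q) (by positivity)).trans (le_of_eq ?_)
      have e1 : (s ^ 2) ^ q * s = s ^ (2 * t) * s ^ (2 * q + 1 - 2 * t) := by
        rw [← pow_mul, ← pow_succ, ← pow_add]
        congr 1
        omega
      have e2 : (s ^ 2) ^ q = s ^ (2 * t) * s ^ (2 * q + 1 - 2 * t) / s := by
        rw [← e1]
        field_simp
      rw [e2, mul_pow]
      ring
  refine ⟨Summable.of_norm_bounded hg.summable hb, ?_⟩
  have h5 := tsum_of_norm_bounded hg hb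
  rw [Real.norm_eq_abs] at h5
  refine h5.trans ?_
  refine mul_le_mul_of_nonneg_left ?_ (by positivity)
  have p1 : 0 < 1 - s * ρ := by linarith
  have h6 : 0 < 1 / (1 - s * ρ) ^ (2 * t + 1) := by positivity
  have h7 : 0 < 1 / (1 + s * ρ) ^ (2 * t + 1) := by positivity
  linarith

/-- `E t` up to the remainders -/
theorem Et_eq (t : ℕ) {ρ s C r : ℝ} {Γ : ℕ → ℝ} (h0 : 0 < ρ) (h1 : ρ < 1) (hs0 : 0 < s)
    (hs1 : s < 1) (hΓ : ∀ q, |Γ q - r| ≤ C * (s ^ 2) ^ q) :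
    Et Γ ρ t = r / 2 * (1 / (1 - ρ) ^ (2 * t + 1)) - r / 2 * (1 / (1 + ρ) ^ (2 * t + 1)) +
      ∑' q : ℕ, (Γ q - r) * (((2 * q + 1).choose (2 * t) : ℝ) * ρ ^ (2 * q + 1 - 2 * t)) := by
  have hs := hasSum_odd t h0.le h1
  have h2 := (hs.mul_left r).add (rem_bound t h0 h1 hs0 hs1 hΓ).1.hasSum
  unfold Et
  rw [show (fun q : ℕ => Γ q * ((2 * q + 1).choose (2 * t) : ℝ) * ρ ^ (2 * q + 1 - 2 * t)) =
    fun q : ℕ => r * (((2 * q + 1).choose (2 * t) : ℝ) * ρ ^ (2 * q + 1 - 2 * t)) +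
      (Γ q - r) * (((2 * q + 1).choose (2 * t) : ℝ) * ρ ^ (2 * q + 1 - 2 * t)) from by
    funext q; ring]
  rw [h2.tsum_eq]
  ring

theorem df_le (t : ℕ) : (Nat.doubleFactorial (2 * t - 1) : ℝ) ≤ odf t := by
  have : Nat.doubleFactorial (2 * t - 1) ≤ odf t := by
    rcases Nat.eq_zero_or_pos t with rfl | ht
    · simp [odf]
    · unfold odf
      rw [show 2 * t + 1 = (2 * t - 1) + 2 by omega, Nat.doubleFactorial_add_two]
      exact Nat.le_mul_of_pos_left _ (by omega)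
  exact_mod_cast this

theorem neg1 (K v ρ : ℝ) (r : ℝ) (hv : 0 < v) (h0 : 0 < ρ) (h1 : ρ < 1) (L : ℕ) :
    (fun t : ℕ => ((K * (Nat.doubleFactorial (2 * t - 1) : ℝ) * (-v) ^ t *
      (r / 2 * (1 / (1 + ρ) ^ (2 * t + 1))) : ℝ) : ℂ)) =O[atTop]
      (fun k => gau 0 (v / (1 - ρ) ^ 2) (k - L)) := by
  have p1 : 0 < 1 - ρ := by linarith
  have hB : 0 < v / (1 - ρ) ^ 2 := by positivity
  have q1 : (1 - ρ) / (1 + ρ) < 1 := by
    rw [div_lt_one (by linarith)]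
    linarith
  refine negligible 0 hB (θ := ((1 - ρ) / (1 + ρ)) ^ 2) (C' := |K| * (|r| / 2)) (by positivity)
    (pow_lt_one₀ (by positivity) q1 two_ne_zero) (fun t => ?_) L
  rw [Complex.norm_real, Real.norm_eq_abs]
  have e1 : ((1 - ρ) / (1 + ρ)) ^ 2 * (v / (1 - ρ) ^ 2) = v / (1 + ρ) ^ 2 := by
    field_simp
  rw [e1, abs_mul, abs_mul, abs_mul, abs_mul, abs_pow, abs_neg, abs_of_pos hv,
    abs_of_nonneg (a := (Nat.doubleFactorial (2 * t - 1) : ℝ)) (by positivity),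
    abs_of_pos (a := 1 / (1 + ρ) ^ (2 * t + 1)) (by positivity), abs_div,
    abs_of_pos (a := (2 : ℝ)) two_pos]
  have e2 : v ^ t * (1 / (1 + ρ) ^ (2 * t + 1)) ≤ (v / (1 + ρ) ^ 2) ^ t := by
    rw [div_pow, ← pow_mul, pow_succ, mul_one_div]
    refine div_le_div_of_nonneg_left (by positivity) (by positivity) ?_
    refine le_mul_of_one_le_right (by positivity) (by linarith)
  calc |K| * (Nat.doubleFactorial (2 * t - 1) : ℝ) * v ^ t * (|r| / 2 * (1 / (1 + ρ) ^ (2 * t + 1)))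
      = |K| * (|r| / 2) * ((Nat.doubleFactorial (2 * t - 1) : ℝ) *
        (v ^ t * (1 / (1 + ρ) ^ (2 * t + 1)))) := by ring
    _ ≤ |K| * (|r| / 2) * (odf t * (v / (1 + ρ) ^ 2) ^ t) := by
        refine mul_le_mul_of_nonneg_left ?_ (by positivity)
        exact mul_le_mul (df_le t) e2 (by positivity) (by positivity)

theorem neg2 (K v : ℝ) {ρ s C r : ℝ} {Γ : ℕ → ℝ} (hv : 0 < v) (h0 : 0 < ρ) (h1 : ρ < 1)
    (hs0 : 0 < s) (hs1 : s < 1) (hΓ : ∀ q, |Γ q - r| ≤ C * (s ^ 2) ^ q) (L : ℕ) :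
    (fun t : ℕ => ((K * (Nat.doubleFactorial (2 * t - 1) : ℝ) * (-v) ^ t *
      ∑' q : ℕ, (Γ q - r) * (((2 * q + 1).choose (2 * t) : ℝ) * ρ ^ (2 * q + 1 - 2 * t)) : ℝ) : ℂ))
      =O[atTop] (fun k => gau 0 (v / (1 - ρ) ^ 2) (k - L)) := by
  have p1 : 0 < 1 - ρ := by linarith
  have p2 : 0 < 1 - s * ρ := by nlinarith
  have hC : 0 ≤ C := by
    have := (abs_nonneg _).trans (hΓ 0)
    simpa using this
  have hB : 0 < v / (1 - ρ) ^ 2 := by positivity
  have q1 : s * (1 - ρ) / (1 - s * ρ) < 1 := by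
    rw [div_lt_one p2]
    linarith
  refine negligible 0 hB (θ := (s * (1 - ρ) / (1 - s * ρ)) ^ 2)
    (C' := |K| * (C / s / (1 - s * ρ))) (by positivity)
    (pow_lt_one₀ (by positivity) q1 two_ne_zero) (fun t => ?_) L
  rw [Complex.norm_real, Real.norm_eq_abs]
  have e1 : (s * (1 - ρ) / (1 - s * ρ)) ^ 2 * (v / (1 - ρ) ^ 2) = v * s ^ 2 / (1 - s * ρ) ^ 2 := by
    field_simp
  rw [e1, abs_mul, abs_mul, abs_mul, abs_pow, abs_neg, abs_of_pos hv,
    abs_of_nonneg (a := (Nat.doubleFactorial (2 * t - 1) : ℝ)) (by positivity)]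
  have h2 := (rem_bound t h0 h1 hs0 hs1 hΓ).2
  have e2 : v ^ t * (C / s * s ^ (2 * t) * (1 / (1 - s * ρ) ^ (2 * t + 1))) =
      C / s / (1 - s * ρ) * (v * s ^ 2 / (1 - s * ρ) ^ 2) ^ t := by
    rw [div_pow, mul_pow, ← pow_mul, ← pow_mul, pow_succ (1 - s * ρ) (2 * t)]
    field_simp
  calc |K| * (Nat.doubleFactorial (2 * t - 1) : ℝ) * v ^ t * |∑' q : ℕ, (Γ q - r) *
        (((2 * q + 1).choose (2 * t) : ℝ) * ρ ^ (2 * q + 1 - 2 * t))|
      ≤ |K| * (Nat.doubleFactorial (2 * t - 1) : ℝ) * v ^ t *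
        (C / s * s ^ (2 * t) * (1 / (1 - s * ρ) ^ (2 * t + 1))) :=
        mul_le_mul_of_nonneg_left h2 (by positivity)
    _ = |K| * (Nat.doubleFactorial (2 * t - 1) : ℝ) * (v ^ t *
        (C / s * s ^ (2 * t) * (1 / (1 - s * ρ) ^ (2 * t + 1)))) := by ring
    _ = |K| * (C / s / (1 - s * ρ)) * ((Nat.doubleFactorial (2 * t - 1) : ℝ) *
        (v * s ^ 2 / (1 - s * ρ) ^ 2) ^ t) := by rw [e2]; ring
    _ ≤ |K| * (C / s / (1 - s * ρ)) * (odf t * (v * s ^ 2 / (1 - s * ρ) ^ 2) ^ t) := by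
        refine mul_le_mul_of_nonneg_left ?_ (by positivity)
        exact mul_le_mul_of_nonneg_right (df_le t) (by positivity)

theorem t_SECOND : S_SECOND := by
  intro K v ρ r C θ Γ hv h0 h1 ht0 ht1 hΓ
  set s := √θ with hs
  have hs0 : 0 < s := Real.sqrt_pos.2 ht0
  have hs2 : s ^ 2 = θ := Real.sq_sqrt ht0.le
  have hs1 : s < 1 := by
    rw [hs, Real.sqrt_lt' one_pos]
    simpa using ht1
  have hΓ' : ∀ q, |Γ q - r| ≤ C * (s ^ 2) ^ q := by
    rw [hs2]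
    exact hΓ
  have p1 : 0 < 1 - ρ := by linarith
  have hB : 0 < v / (1 - ρ) ^ 2 := by positivity
  refine Asy.of_finite (gauge_gau 0 hB) 1 (fun l _ => by simp) (fun l hl => ?_) (fun L => ?_)
  · rw [coeff_C_mul, coeff_X, if_neg (by omega), mul_zero]
  · have h2 := (neg2 K v hv h0 h1 hs0 hs1 hΓ' L).sub (neg1 K v ρ r hv h0 h1 L)
    refine h2.congr' ?_ (EventuallyEq.refl _ _)
    filter_upwards [eventually_ge_atTop 1] with k hk
    obtain ⟨n, rfl⟩ := Nat.exists_eq_add_of_le' hk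
    have e3 : coeff (n + 1) (expSeries K v ρ Γ) = ((K * (Nat.doubleFactorial (2 * (n + 1) - 1) : ℝ) *
        (-v) ^ (n + 1) * Et Γ ρ (n + 1) : ℝ) : ℂ) := by
      unfold expSeries
      rw [coeff_mk]
    have e4 : mainPart (gau 0 (v / (1 - ρ) ^ 2)) 0 (PowerSeries.C ((-(K * (r / 2) *
        (v / (1 - ρ) ^ 2) / (1 - ρ)) : ℝ) : ℂ) * PowerSeries.X) (1 + 1) (n + 1) =
        (((-1) ^ n * (-(K * (r / 2) * (v / (1 - ρ) ^ 2) / (1 - ρ))) *
          (odf n * (v / (1 - ρ) ^ 2) ^ n) : ℝ) : ℂ) := by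
      unfold mainPart
      rw [sum_range_succ, sum_range_one]
      simp only [map_zero, zero_add, coeff_C_mul, coeff_X, gau]
      norm_num
    rw [e3, e4, Et_eq (n + 1) h0 h1 hs0 hs1 hΓ']
    have e5 : Nat.doubleFactorial (2 * (n + 1) - 1) = odf n := by
      unfold odf
      congr 1
    rw [e5]
    rw [← Complex.ofReal_sub, ← Complex.ofReal_sub]
    congr 1
    have e6 : (-v) ^ (n + 1) * (1 / (1 - ρ) ^ (2 * (n + 1) + 1)) =
        (-1) ^ n * (-((v / (1 - ρ) ^ 2) / (1 - ρ))) * (v / (1 - ρ) ^ 2) ^ n := by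
      rw [neg_pow, div_pow, ← pow_mul]
      field_simp
      ring
    linear_combination (-(K * odf n * (r / 2))) * e6

end Pool.Agent.K3h72.SB.Second
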